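import Pool.Agent.H84.Scc

namespace Pool.Agent.Results.MP_69956f_gt.No

open Pool.Agent.H84.SccDefs TopologicalSpace

theorem result : ∃ K : Set ((ℕ → ℕ) → ℝ), (∀ f ∈ K, ScatCont f) ∧ IsCompact K ∧
    (∃ C : Set (ℝ → ℝ), IsCompact C ∧ Convex ℝ C ∧ Nonempty (K ≃ₜ C)) ∧ ¬ MetrizableSpace K :=
  Pool.Agent.H84.Scc.main2

end Pool.Agent.Results.MP_69956f_gt.No
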